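import Mathlib
import Pool.Agent.Q42.SM.Split

/-!
# Number fields: reductions of the conjugates in the prime field
-/

set_option autoImplicit false

namespace Pool.Agent.Q42.NF

open Finset Matrix NumberField

variable {K : Type} [Field K] [NumberField K] {m : ℕ}

/-- an embedding of the ring of integers into the algebraic integers -/
noncomputable def emb (σ : K →+* ℂ) : 𝓞 K →+* integralClosure ℤ ℂ :=
  (σ.comp (algebraMap (𝓞 K) K)).codRestrict (integralClosure ℤ ℂ).toSubring fun x =>
    map_isIntegral_int σ x.isIntegral_coe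

theorem emb_coe (σ : K →+* ℂ) (x : 𝓞 K) : ((emb σ x : integralClosure ℤ ℂ) : ℂ) = σ x := rfl

/-- the matrix of the conjugates of a basis -/
noncomputable def Nm (b : Module.Basis (Fin m) ℤ (𝓞 K)) (e : Fin m → (K →+* ℂ)) :
    Matrix (Fin m) (Fin m) (integralClosure ℤ ℂ) := of fun i j => emb (e j) (b i)

/-- the coordinates of the powers -/
noncomputable def Tm (b : Module.Basis (Fin m) ℤ (𝓞 K)) (θ : 𝓞 K) : Matrix (Fin m) (Fin m) ℤ :=
  of fun k i => b.repr (θ ^ (k : ℕ)) i

theorem mul_eq (b : Module.Basis (Fin m) ℤ (𝓞 K)) (e : Fin m → (K →+* ℂ)) (θ : 𝓞 K) :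
    (vandermonde fun j => emb (e j) θ)ᵀ =
      (Tm b θ).map (Int.castRingHom (integralClosure ℤ ℂ)) * Nm b e := by
  ext k j : 1
  rw [transpose_apply, vandermonde_apply, mul_apply]
  have h1 : θ ^ (k : ℕ) = ∑ i, b.repr (θ ^ (k : ℕ)) i • b i := (b.sum_repr _).symm
  rw [← map_pow, h1, map_sum]
  refine sum_congr rfl fun i _ => ?_
  simp only [Tm, Nm, map_apply, of_apply]
  rw [map_zsmul, zsmul_eq_mul]
  simp

theorem det_eq (b : Module.Basis (Fin m) ℤ (𝓞 K)) (e : Fin m → (K →+* ℂ)) (θ : 𝓞 K) :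
    (vandermonde fun j => emb (e j) θ).det =
      (((Tm b θ).det : ℤ) : integralClosure ℤ ℂ) * (Nm b e).det := by
  rw [← det_transpose, mul_eq b e θ, det_mul]
  congr 1
  have := (RingHom.map_det (Int.castRingHom (integralClosure ℤ ℂ)) (Tm b θ)).symm
  simpa using this

section

variable {F : Type} [Field F] {p : ℕ} [hp : Fact p.Prime] [CharP F p]

theorem card_ge (φ : integralClosure ℤ ℂ →+* F) (b : Module.Basis (Fin m) ℤ (𝓞 K))
    (e : Fin m → (K →+* ℂ)) (D : ℤ) (hD : (Nm b e).det ^ 2 = (D : integralClosure ℤ ℂ))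
    (hpD : ¬ (p : ℤ) ∣ D) (θ : 𝓞 K) (hθ : ∀ j, φ (emb (e j) θ) ^ p = φ (emb (e j) θ))
    (ht : ¬ (p : ℤ) ∣ (Tm b θ).det) : m ≤ Nat.card (𝓞 K →+* ZMod p) := by
  classical
  let _ : Algebra (ZMod p) F := ZMod.algebra F p
  have ht0 : (((Tm b θ).det : ℤ) : F) ≠ 0 := fun h =>
    ht ((CharP.intCast_eq_zero_iff F p _).1 h)
  -- the reductions of the conjugates are distinct
  have h1 : (vandermonde fun j => φ (emb (e j) θ)).det ≠ 0 := by
    have e1 : (vandermonde fun j => φ (emb (e j) θ)) =
        φ.mapMatrix (vandermonde fun j => emb (e j) θ) := by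
      ext i j
      simp [vandermonde_apply]
    rw [e1, ← RingHom.map_det, det_eq b e θ, map_mul, map_intCast]
    refine mul_ne_zero ht0 fun h0 => hpD ?_
    rw [← CharP.intCast_eq_zero_iff F p, ← map_intCast φ D, ← hD, map_pow, h0]
    ring
  have hinj : Function.Injective fun j => φ (emb (e j) θ) := det_vandermonde_ne_zero_iff.1 h1
  -- all values lie in the prime field
  have hfix : ∀ j, ∀ x : 𝓞 K, φ (emb (e j) x) ^ p = φ (emb (e j) x) := by
    intro j
    set ψ : 𝓞 K →+* F := φ.comp (emb (e j)) with hψ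
    change ∀ x : 𝓞 K, ψ x ^ p = ψ x
    have hadd : ∀ x y : F, x ^ p = x → y ^ p = y → (x + y) ^ p = x + y := by
      intro x y hx hy
      rw [add_pow_char, hx, hy]
    have hmul : ∀ x y : F, x ^ p = x → y ^ p = y → (x * y) ^ p = x * y := by
      intro x y hx hy
      rw [mul_pow, hx, hy]
    have hint : ∀ z : ℤ, ((z : F)) ^ p = (z : F) := by
      intro z
      have : ((z : ZMod p)) ^ p = (z : ZMod p) := ZMod.pow_card _
      have h2 := congrArg (algebraMap (ZMod p) F) this
      rwa [map_pow, map_intCast] at h2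
    have hsum : ∀ (s : Finset (Fin m)) (g : Fin m → F), (∀ i, g i ^ p = g i) →
        (∑ i ∈ s, g i) ^ p = ∑ i ∈ s, g i := by
      intro s g hg
      induction s using Finset.induction_on with
      | empty => simp [hp.out.ne_zero]
      | insert i s hi ih => rw [sum_insert hi]; exact hadd _ _ (hg i) ih
    -- the basis
    have hb : ∀ i, ψ (b i) ^ p = ψ (b i) := by
      intro i
      have e1 : (((Tm b θ).det : ℤ) : 𝓞 K) * b i =
          ∑ k, ((((Tm b θ).adjugate i k : ℤ)) : 𝓞 K) * θ ^ (k : ℕ) := by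
        have e2 : ∀ k : Fin m, θ ^ (k : ℕ) = ∑ l, ((Tm b θ k l : ℤ) : 𝓞 K) * b l := by
          intro k
          conv_lhs => rw [← b.sum_repr (θ ^ (k : ℕ))]
          refine sum_congr rfl fun l _ => ?_
          rw [zsmul_eq_mul]
          rfl
        have e3 : ∑ k, ((((Tm b θ).adjugate i k : ℤ)) : 𝓞 K) * θ ^ (k : ℕ) =
            ∑ l, (((((Tm b θ).adjugate * Tm b θ) i l : ℤ)) : 𝓞 K) * b l := by
          simp only [mul_apply]
          push_cast
          simp only [sum_mul]
          rw [sum_comm]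
          refine sum_congr rfl fun k _ => ?_
          rw [e2 k, mul_sum]
          refine sum_congr rfl fun l _ => ?_
          ring
        rw [e3, adjugate_mul]
        rw [sum_eq_single i]
        · simp
        · intro l _ hl
          simp [one_apply_ne hl.symm]
        · intro h
          exact absurd (mem_univ i) h
      have e4 := congrArg ψ e1
      rw [map_mul, map_intCast, map_sum] at e4
      have e5 : (∑ k, ψ (((((Tm b θ).adjugate i k : ℤ)) : 𝓞 K) * θ ^ (k : ℕ))) ^ p =
          ∑ k, ψ (((((Tm b θ).adjugate i k : ℤ)) : 𝓞 K) * θ ^ (k : ℕ)) := by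
        refine hsum univ _ fun k => ?_
        rw [map_mul, map_intCast, map_pow]
        refine hmul _ _ (hint _) ?_
        rw [← pow_mul, mul_comm, pow_mul]
        congr 1
        exact hθ j
      rw [← e4, mul_pow, hint] at e5
      exact mul_left_cancel₀ ht0 e5
    intro x
    rw [← b.sum_repr x, map_sum]
    refine hsum univ _ fun i => ?_
    rw [zsmul_eq_mul, map_mul, map_intCast]
    exact hmul _ _ (hint _) (hb i)
  -- the homomorphisms to the prime field
  set f : ZMod p →+* F := algebraMap (ZMod p) F with hf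
  have hfi : Function.Injective f := f.injective
  have hex : ∀ j, ∃ g : 𝓞 K →+* ZMod p, ∀ x, f (g x) = φ (emb (e j) x) := by
    intro j
    have hr : ∀ x, φ (emb (e j) x) ∈ f.range := by
      intro x
      obtain ⟨a, ha⟩ := Pool.Agent.Q42.SM.frob_fixed (p := p) _ (hfix j x)
      rw [ha]
      exact ⟨a, by rw [Algebra.smul_def, mul_one]⟩
    have hbij : Function.Bijective f.rangeRestrict :=
      ⟨fun x y h => hfi (congrArg Subtype.val h), f.rangeRestrict_surjective⟩
    refine ⟨((RingEquiv.ofBijective f.rangeRestrict hbij).symm : f.range →+* ZMod p).comp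
      ((φ.comp (emb (e j))).codRestrict f.range hr), fun x => ?_⟩
    have := (RingEquiv.ofBijective f.rangeRestrict hbij).apply_symm_apply
      (((φ.comp (emb (e j))).codRestrict f.range hr) x)
    exact congrArg Subtype.val this
  choose g hg using hex
  have hgi : Function.Injective g := by
    intro i j hij
    apply hinj
    simp only
    rw [← hg i, ← hg j, hij]
  have hfin : Finite (𝓞 K →+* ZMod p) := by
    refine Finite.of_injective (fun h : 𝓞 K →+* ZMod p => fun i => h (b i)) fun h h' hh => ?_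
    ext x
    rw [← b.sum_repr x, map_sum, map_sum]
    refine sum_congr rfl fun i _ => ?_
    rw [zsmul_eq_mul, map_mul, map_mul, map_intCast, map_intCast]
    congr 1
    exact congrFun hh i
  have := Nat.card_le_card_of_injective g hgi
  rwa [Nat.card_eq_fintype_card, Fintype.card_fin] at this

end

/-- the determinant of the coordinates of the powers is bounded -/
theorem t_bound (b : Module.Basis (Fin m) ℤ (𝓞 K)) (e : Fin m → (K →+* ℂ)) (D : ℤ)
    (hD : (Nm b e).det ^ 2 = (D : integralClosure ℤ ℂ)) (hD0 : D ≠ 0) (θ : 𝓞 K) (B : ℝ)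
    (hB : ∀ j, ‖e j θ‖ ≤ B) : |((Tm b θ).det : ℝ)| ≤ (2 * B) ^ (m * (m - 1) / 2) := by
  have h1 : ‖(((vandermonde fun j => emb (e j) θ).det : integralClosure ℤ ℂ) : ℂ)‖ =
      ‖(((Tm b θ).det : ℤ) : ℂ)‖ * ‖(((Nm b e).det : integralClosure ℤ ℂ) : ℂ)‖ := by
    rw [det_eq b e θ, ← norm_mul]
    rfl
  have h2 : (1 : ℝ) ≤ ‖((Nm b e).det : ℂ)‖ := by
    have h3 := congrArg (fun x : integralClosure ℤ ℂ => ‖(x : ℂ)‖) hD
    push_cast at h3
    rw [norm_pow, Complex.norm_intCast] at h3
    have h4 : (1 : ℝ) ≤ |(D : ℝ)| := by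
      have := Int.one_le_abs hD0
      exact_mod_cast this
    rw [← h3] at h4
    by_contra hcon
    push Not at hcon
    have := pow_lt_one₀ (norm_nonneg _) hcon (two_ne_zero)
    linarith
  have h5 : ‖((vandermonde fun j => emb (e j) θ).det : ℂ)‖ ≤ (2 * B) ^ (m * (m - 1) / 2) := by
    rw [det_vandermonde]
    push_cast
    rw [norm_prod]
    have h6 : ∀ i : Fin m, ‖∏ j ∈ Ioi i, (((emb (e j) θ : integralClosure ℤ ℂ) : ℂ) -
        ((emb (e i) θ : integralClosure ℤ ℂ) : ℂ))‖ ≤ ∏ j ∈ Ioi i, (2 * B) := by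
      intro i
      rw [norm_prod]
      refine prod_le_prod (fun _ _ => norm_nonneg _) fun j _ => ?_
      refine (norm_sub_le _ _).trans ?_
      rw [emb_coe, emb_coe]
      have := hB j
      have := hB i
      linarith
    refine (prod_le_prod (fun _ _ => norm_nonneg _) fun i _ => h6 i).trans ?_
    rw [prod_congr rfl fun i _ => prod_const (2 * B), prod_pow_eq_pow_sum]
    have h7 : ∑ i : Fin m, #(Ioi i) = m * (m - 1) / 2 := by
      have : ∀ i : Fin m, #(Ioi i) = m - 1 - (i : ℕ) := fun i => Fin.card_Ioi i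
      rw [sum_congr rfl fun i _ => this i, Fin.sum_univ_eq_sum_range (fun i => m - 1 - i) m,
        sum_range_reflect (fun i => i) m, sum_range_id]
    rw [h7]
  rw [h1, Complex.norm_intCast] at h5
  exact (le_mul_of_one_le_right (abs_nonneg _) h2).trans h5

theorem t_ne_zero (b : Module.Basis (Fin m) ℤ (𝓞 K)) (e : Fin m → (K →+* ℂ)) (θ : 𝓞 K)
    (he : Function.Injective fun j => e j θ) : (Tm b θ).det ≠ 0 := by
  intro h
  have h1 := det_eq b e θ
  rw [h, Int.cast_zero, zero_mul] at h1
  have h2 := det_vandermonde_ne_zero_iff.2 (show Function.Injective fun j => emb (e j) θ from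
    fun i j hij => he (congrArg (fun x : integralClosure ℤ ℂ => (x : ℂ)) hij))
  exact h2 h1

/-- a basis, the embeddings and the discriminant -/
theorem exists_basis (K : Type) [Field K] [NumberField K] :
    ∃ (b : Module.Basis (Fin (Module.finrank ℚ K)) ℤ (𝓞 K))
      (e : Fin (Module.finrank ℚ K) → (K →+* ℂ)) (D : ℤ), D ≠ 0 ∧ Function.Bijective e ∧
      (Nm b e).det ^ 2 = (D : integralClosure ℤ ℂ) := by
  classical
  set m := Module.finrank ℚ K with hm
  have c1 : Fintype.card (Module.Free.ChooseBasisIndex ℤ (𝓞 K)) = m := by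
    rw [hm, Fintype.card_eq.2 ⟨Equiv.refl _⟩, ← RingOfIntegers.rank,
      Module.finrank_eq_card_chooseBasisIndex]
  have c2 : Fintype.card (K →ₐ[ℚ] ℂ) = m := by
    rw [hm]
    exact AlgHom.card ℚ K ℂ
  set f1 : Module.Free.ChooseBasisIndex ℤ (𝓞 K) ≃ Fin m := Fintype.equivFinOfCardEq c1
  set f2 : Fin m ≃ (K →ₐ[ℚ] ℂ) := (Fintype.equivFinOfCardEq c2).symm
  refine ⟨(RingOfIntegers.basis K).reindex f1, fun j => (f2 j : K →+* ℂ), NumberField.discr K,
    NumberField.discr_ne_zero K, ?_, ?_⟩
  · have : Function.Bijective fun σ : K →ₐ[ℚ] ℂ => (σ : K →+* ℂ) := by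
      refine ⟨fun σ τ h => AlgHom.coe_ringHom_injective h, fun σ => ⟨RingHom.toRatAlgHom σ, ?_⟩⟩
      ext x
      rfl
    exact this.comp f2.bijective
  · apply Subtype.ext
    push_cast
    have h1 := Algebra.discr_eq_det_embeddingsMatrixReindex_pow_two ℚ ℂ
      ((integralBasis K).reindex f1) f2
    have h2 : Algebra.discr ℚ ((integralBasis K).reindex f1) = (NumberField.discr K : ℚ) := by
      rw [NumberField.coe_discr]
      have := Algebra.discr_reindex ℚ (integralBasis K) f1
      rw [← this]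
      congr 1
      ext i
      simp
    rw [h2] at h1
    have h3 : algebraMap ℚ ℂ ((NumberField.discr K : ℤ) : ℚ) = ((NumberField.discr K : ℤ) : ℂ) := by
      simp
    rw [h3] at h1
    rw [h1]
    congr 1
    have h4 := RingHom.map_det (algebraMap (integralClosure ℤ ℂ) ℂ)
      (Nm ((RingOfIntegers.basis K).reindex f1) fun j => (f2 j : K →+* ℂ))
    change algebraMap (integralClosure ℤ ℂ) ℂ _ = _
    rw [h4]
    congr 1
    ext i j
    simp only [RingHom.mapMatrix_apply, map_apply, Nm, of_apply, Algebra.embeddingsMatrixReindex,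
      Algebra.embeddingsMatrix_apply, reindex_apply, submatrix_apply, Equiv.refl_symm,
      Equiv.coe_refl, id_eq, Equiv.symm_symm, Module.Basis.reindex_apply, integralBasis_apply]
    rfl

end Pool.Agent.Q42.NF
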