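import Mathlib
import Pool.Agent.Q42.SM.Integ
import Pool.Agent.Q42.SM.Split

/-!
# The degree is not zero
-/

set_option autoImplicit false

namespace Pool.Agent.Q42.NF

open Finset Polynomial Pool.Agent.Q49.RB Pool.Agent.Q42.SM

theorem hilb_pos {n r : ℕ} {I : Ideal (Poly n)} (hI : IsSmoothVariety n r I) (k : ℕ) :
    hilb I k ≠ 0 := by
  obtain ⟨x, hx, hx0⟩ := hI.nonempty
  obtain ⟨i, hi⟩ : ∃ i, x i ≠ 0 := by
    by_contra hcon
    push Not at hcon
    exact hx0 (funext hcon)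
  intro h
  unfold hilb at h
  have hfg : Module.Finite ℂ ↥(MvPolynomial.homogeneousSubmodule (Fin (n + 1)) ℂ k) :=
    Module.Finite.iff_fg.2 (MvPolynomial.homogeneousSubmodule_fg (Fin (n + 1)) ℂ k)
  rw [Submodule.finrank_eq_zero] at h
  have h1 : (MvPolynomial.X i ^ k : Poly n) ∈ MvPolynomial.homogeneousSubmodule (Fin (n + 1)) ℂ k := by
    rw [MvPolynomial.mem_homogeneousSubmodule]
    have := (MvPolynomial.isHomogeneous_X ℂ i).pow k
    rwa [one_mul] at this
  have h2 := Submodule.mem_map_of_mem (f := (Ideal.Quotient.mkₐ ℂ I).toLinearMap) h1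
  rw [h, Submodule.mem_bot] at h2
  have h3 : (MvPolynomial.X i ^ k : Poly n) ∈ I := Ideal.Quotient.eq_zero_iff_mem.1 h2
  have h4 := hx _ h3
  rw [map_pow, MvPolynomial.eval_X] at h4
  exact pow_ne_zero k hi h4

theorem deg_ne_zero {n r : ℕ} {I : Ideal (Poly n)} (hI : IsSmoothVariety n r I) {c : ℕ → ℤ}
    {δ : Fin r → ℂ} (h : IsNormalChern r I c δ) : c r ≠ 0 := by
  intro hc
  have h1 := prod_root h.1
  rw [hc, Int.cast_zero, prod_eq_zero_iff] at h1
  obtain ⟨i0, -, hi0⟩ := h1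
  obtain ⟨k₀, hk⟩ := h.2
  have h2 := hk k₀ le_rfl
  have h3 := alt_zero i0 hi0 (fun x => binomial (n + k₀ - x) n)
  unfold sg at h3
  rw [h3] at h2
  exact hilb_pos hI k₀ (by exact_mod_cast h2)

section

variable {r : ℕ} {δ : Fin r → ℂ} {c : ℕ → ℤ}

/-- all reductions of the Chern roots lie in the prime field, also for `p` dividing the degree if
`r = 2` -/
theorem roots_fixed' {F : Type} [Field F] (n p : ℕ) (hp : p.Prime) [CharP F p] (hpr : 2 ^ r < p)
    (hn : p + 2 ^ r ≤ n + 1)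
    (h : ∏ i, (1 + C (δ i) * X) = ∑ j ∈ range (r + 1), C ((c j : ℤ) : ℂ) * X ^ j)
    (hI : Integral n (fun S : Finset (Fin r) => (-1 : ℤ) ^ S.card) (fun S => ∑ i ∈ S, -δ i))
    (hc : r = 2 ∨ ¬ (p : ℤ) ∣ c r) (φ : integralClosure ℤ ℂ →+* F) (i : Fin r) :
    φ ⟨δ i, root_integral h i⟩ ^ p = φ ⟨δ i, root_integral h i⟩ := by
  by_cases hd : (p : ℤ) ∣ c r
  swap
  · exact roots_fixed n p hp hpr hn h hI hd φ i
  have hr : r = 2 := hc.resolve_right fun hx => hx hd
  subst hr
  have : Fact p.Prime := ⟨hp⟩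
  set x : Fin 2 → F := fun i => φ ⟨δ i, root_integral h i⟩ with hx
  have hprod : x 0 * x 1 = 0 := by
    have h1 : (⟨δ 0, root_integral h 0⟩ * ⟨δ 1, root_integral h 1⟩ : integralClosure ℤ ℂ) =
        ((c 2 : ℤ) : integralClosure ℤ ℂ) := by
      apply Subtype.ext
      push_cast
      have := prod_root h
      rwa [Fin.prod_univ_two] at this
    have h2 := congrArg φ h1
    rw [map_mul, map_intCast, (CharP.intCast_eq_zero_iff F p _).2 hd] at h2
    exact h2
  have hsum : x 0 + x 1 = ((c 1 : ℤ) : F) := by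
    have h1 : (⟨δ 0, root_integral h 0⟩ + ⟨δ 1, root_integral h 1⟩ : integralClosure ℤ ℂ) =
        ((c 1 : ℤ) : integralClosure ℤ ℂ) := by
      apply Subtype.ext
      push_cast
      have := sum_root h (by norm_num)
      rwa [Fin.sum_univ_two] at this
    have h2 := congrArg φ h1
    rw [map_add, map_intCast] at h2
    exact h2
  let _ : Algebra (ZMod p) F := ZMod.algebra F p
  have hint : ∀ z : ℤ, ((z : F)) ^ p = (z : F) := by
    intro z
    have : ((z : ZMod p)) ^ p = (z : ZMod p) := ZMod.pow_card _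
    have h2 := congrArg (algebraMap (ZMod p) F) this
    rwa [map_pow, map_intCast] at h2
  change x i ^ p = x i
  have h0 : ∀ y z : F, y * z = 0 → y + z = ((c 1 : ℤ) : F) → y ^ p = y := by
    intro y z hyz hs
    rcases mul_eq_zero.1 hyz with h | h
    · rw [h, zero_pow hp.ne_zero]
    · rw [h, add_zero] at hs
      rw [hs]
      exact hint _
  fin_cases i
  · exact h0 _ _ hprod hsum
  · exact h0 (x 1) (x 0) (by rw [mul_comm]; exact hprod) (by rw [add_comm]; exact hsum)

end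

end Pool.Agent.Q42.NF
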