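import Pool.Agent.H484R2.Zeta
import Pool.Agent.H332R2.PIT.Main

/-!
# The primes which do not split completely in a number field
-/

set_option autoImplicit false

namespace Pool.Agent.Q42.NF

open Finset NumberField Filter Topology

/-- the primes up to `N` which do not split completely -/
noncomputable def NS (K : Type) [Field K] [NumberField K] (N : ℕ) : Finset ℕ :=
  (range (N + 1)).filter fun p => p.Prime ∧ Nat.card (𝓞 K →+* ZMod p) < Module.finrank ℚ K

theorem nonsplit (K : Type) [Field K] [NumberField K] (a : ℝ)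
    (ha : a < 1 - 1 / (Module.finrank ℚ K : ℝ)) :
    ∀ᶠ N : ℕ in atTop, a * N ≤ ∑ p ∈ NS K N, Real.log p := by
  classical
  set m : ℝ := (Module.finrank ℚ K : ℝ) with hm
  have hm0 : 0 < m := by
    have : 0 < Module.finrank ℚ K := Module.finrank_pos
    rw [hm]
    exact_mod_cast this
  have h1 : Tendsto (fun N : ℕ => H332.PIT.TT K N / N) atTop (𝓝 1) :=
    H332.PIT.TT_tendsto (Pool.Agent.H484R2.continuation K)
  have h2 : Tendsto (fun N : ℕ => Chebyshev.theta N / N) atTop (𝓝 1) :=
    Pool.Agent.Helper923.PNT.theta_div_tendsto.comp (tendsto_natCast_atTop_atTop (R := ℝ))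
  have h3 := h2.sub (h1.div_const m)
  have h4 : a < 1 - 1 / m := ha
  filter_upwards [h3.eventually (lt_mem_nhds h4), eventually_ge_atTop 1] with N hN hN1
  have hN0 : (0 : ℝ) < N := by exact_mod_cast hN1
  have h5 : a * N ≤ Chebyshev.theta N - H332.PIT.TT K N / m := by
    have h6 : (Chebyshev.theta N / N - H332.PIT.TT K N / N / m) * N =
        Chebyshev.theta N - H332.PIT.TT K N / m := by
      field_simp
    rw [← h6]
    exact mul_le_mul_of_nonneg_right hN.le hN0.le
  refine h5.trans ?_
  rw [H332.PIT.theta_eq]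
  unfold H332.PIT.TT
  set P : Finset ℕ := (range (N + 1)).filter Nat.Prime with hP
  have h7 : NS K N = P.filter fun p => Nat.card (𝓞 K →+* ZMod p) < Module.finrank ℚ K := by
    unfold NS
    rw [hP, filter_filter]
  rw [h7, ← sum_filter_add_sum_filter_not P
    (fun p => Nat.card (𝓞 K →+* ZMod p) < Module.finrank ℚ K)]
  have h8 : ∑ p ∈ P.filter (fun p => ¬ Nat.card (𝓞 K →+* ZMod p) < Module.finrank ℚ K), Real.log p ≤
      (∑ p ∈ P, (Nat.card (𝓞 K →+* ZMod p) : ℝ) * Real.log p) / m := by
    rw [le_div_iff₀ hm0, sum_mul]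
    calc ∑ p ∈ P.filter (fun p => ¬ Nat.card (𝓞 K →+* ZMod p) < Module.finrank ℚ K),
          Real.log p * m ≤ ∑ p ∈ P.filter (fun p => ¬ Nat.card (𝓞 K →+* ZMod p) < Module.finrank ℚ K),
          (Nat.card (𝓞 K →+* ZMod p) : ℝ) * Real.log p := by
            refine sum_le_sum fun p hp => ?_
            have h9 : m ≤ (Nat.card (𝓞 K →+* ZMod p) : ℝ) := by
              rw [hm]
              exact_mod_cast not_lt.1 (mem_filter.1 hp).2
            rw [mul_comm]
            exact mul_le_mul_of_nonneg_right h9 (Real.log_natCast_nonneg p)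
      _ ≤ ∑ p ∈ P, (Nat.card (𝓞 K →+* ZMod p) : ℝ) * Real.log p :=
          sum_le_sum_of_subset_of_nonneg (filter_subset _ _) fun p _ _ =>
            mul_nonneg (Nat.cast_nonneg _) (Real.log_natCast_nonneg p)
  linarith

end Pool.Agent.Q42.NF
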