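import Mathlib
import Pool.Agent.Q42.NF.Alg
import Pool.Agent.Q42.NF.Prim
import Pool.Agent.Q42.NF.Deg
import Pool.Agent.Q49.RB.T3

/-!
# Chern roots in a fixed number field
-/

set_option autoImplicit false

namespace Pool.Agent.Q42.NF

open Finset Polynomial NumberField Filter Topology Pool.Agent.Q49.RB Pool.Agent.Q42.SM

/-- the conjugates of a Chern root are Chern roots -/
theorem conj_root {r : ℕ} {δ : Fin r → ℂ} {c : ℕ → ℤ}
    (h : ∏ i, (1 + C (δ i) * X) = ∑ j ∈ range (r + 1), C ((c j : ℤ) : ℂ) * X ^ j)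
    {K : Type} [Field K] (x : K) (hx : x ≠ 0) (τ σ : K →+* ℂ) (i : Fin r) (hi : τ x = δ i) :
    ∃ k, σ x = δ k := by
  have ev : ∀ z : ℂ, ∏ i, (1 + δ i * z) = ∑ j ∈ range (r + 1), ((c j : ℤ) : ℂ) * z ^ j := by
    intro z
    have := congrArg (fun q : ℂ[X] => q.eval z) h
    simpa [eval_prod, eval_finsetSum] using this
  have h1 : ∑ j ∈ range (r + 1), ((c j : ℤ) : K) * (-x⁻¹) ^ j = 0 := by
    apply τ.injective
    rw [map_zero, map_sum]
    have h2 := ev (-(τ x)⁻¹)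
    rw [prod_eq_zero (mem_univ i)] at h2
    · rw [h2]
      refine sum_congr rfl fun j _ => ?_
      rw [map_mul, map_intCast, map_pow, map_neg, map_inv₀]
    · rw [← hi]
      have : τ x ≠ 0 := (map_ne_zero τ).2 hx
      field_simp
      ring
  have h2 := congrArg σ h1
  rw [map_zero, map_sum] at h2
  have h3 := ev (-(σ x)⁻¹)
  have h4 : ∑ j ∈ range (r + 1), ((c j : ℤ) : ℂ) * (-(σ x)⁻¹) ^ j = 0 := by
    rw [← h2]
    refine sum_congr rfl fun j _ => ?_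
    rw [map_mul, map_intCast, map_pow, map_neg, map_inv₀]
  rw [h4, prod_eq_zero_iff] at h3
  obtain ⟨k, -, hk⟩ := h3
  refine ⟨k, ?_⟩
  have : σ x ≠ 0 := (map_ne_zero σ).2 hx
  field_simp at hk
  linear_combination hk

/-- the bound for the exponents -/
theorem kap_bound {r m : ℕ} (hm : 2 ≤ m) (hmr : m ≤ r) (hr : 3 ≤ r) (κ : ℝ) (hκ0 : 0 ≤ κ)
    (hκ : κ * ((r : ℝ) ^ 2 * (r + 1)) < 2 * (r - 1)) :
    κ * ((m : ℝ) * (m - 1) / 2 + r) < 1 - 1 / m := by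
  have hm' : (2 : ℝ) ≤ m := by exact_mod_cast hm
  have hr' : (3 : ℝ) ≤ r := by exact_mod_cast hr
  have hmr' : (m : ℝ) ≤ r := by exact_mod_cast hmr
  have hm0 : (0 : ℝ) < m := by linarith
  have e1 : 1 - 1 / (m : ℝ) = (m - 1) / m := by field_simp
  rw [e1, lt_div_iff₀ hm0]
  -- `(r - 1) m (m ^ 2 - m + 2 r) ≤ (m - 1) r ^ 2 (r + 1)`
  have key : ((r : ℝ) - 1) * (m * (m ^ 2 - m + 2 * r)) ≤ (m - 1) * (r ^ 2 * (r + 1)) := by
    have h1 : (m - 1) * ((r : ℝ) ^ 2 * (r + 1)) - ((r : ℝ) - 1) * (m * (m ^ 2 - m + 2 * r)) =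
        (r - m) * ((r - 1) * m ^ 2 + (r - 1) ^ 2 * m - r * (r + 1)) := by ring
    have h2 : 0 ≤ ((r : ℝ) - 1) * m ^ 2 + (r - 1) ^ 2 * m - r * (r + 1) := by
      nlinarith [mul_nonneg (sub_nonneg.2 hm') (sub_nonneg.2 hm'), mul_nonneg (by linarith : (0:ℝ) ≤ r - 1) (sub_nonneg.2 hm'), mul_nonneg (mul_nonneg (by linarith : (0:ℝ) ≤ r - 1) (by linarith : (0:ℝ) ≤ r - 1)) (sub_nonneg.2 hm')]
    have h3 := mul_nonneg (sub_nonneg.2 hmr') h2
    linarith
  set A : ℝ := (r : ℝ) ^ 2 * (r + 1) with hA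
  have hA0 : 0 < A := by rw [hA]; positivity
  have h5 : κ * (m * (m ^ 2 - m + 2 * r)) * (r - 1) * 1 < 2 * (m - 1) * (r - 1) := by
    calc κ * (m * (m ^ 2 - m + 2 * r)) * (r - 1) * 1 = κ * (((r : ℝ) - 1) * (m * (m ^ 2 - m + 2 * r))) := by ring
      _ ≤ κ * ((m - 1) * A) := mul_le_mul_of_nonneg_left key hκ0
      _ = (m - 1) * (κ * A) := by ring
      _ < (m - 1) * (2 * (r - 1)) := mul_lt_mul_of_pos_left hκ (by linarith)
      _ = 2 * (m - 1) * (r - 1) := by ring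
  have h6 : κ * (m * (m ^ 2 - m + 2 * r)) < 2 * (m - 1) := by
    have h7 : (0 : ℝ) < r - 1 := by linarith
    rw [mul_one] at h5
    exact lt_of_mul_lt_mul_right h5 h7.le
  nlinarith

/-- the upper bound for `κ` -/
noncomputable def kap (r : ℕ) : ℝ := if r = 2 then 1 / 2 else 2 * (r - 1) / (r ^ 2 * (r + 1))

theorem kap_use {r m : ℕ} (hm : 2 ≤ m) (hmr : m ≤ r) (κ : ℝ) (hκ0 : 0 ≤ κ) (hκ : κ < kap r) :
    κ * ((m : ℝ) * (m - 1) / 2 + (if r = 2 then 0 else r : ℕ)) < 1 - 1 / m := by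
  unfold kap at hκ
  by_cases hr : r = 2
  · subst hr
    have : m = 2 := le_antisymm hmr hm
    subst this
    rw [if_pos rfl] at hκ
    norm_num
    linarith
  · rw [if_neg hr] at hκ
    rw [if_neg hr]
    have hr3 : 3 ≤ r := by omega
    refine kap_bound hm hmr hr3 κ hκ0 ?_
    have : (0 : ℝ) < (r : ℝ) ^ 2 * (r + 1) := by
      have : (0 : ℝ) < r := by
        have : 0 < r := by omega
        exact_mod_cast this
      positivity
    rwa [lt_div_iff₀ this] at hκ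

end Pool.Agent.Q42.NF
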