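import Mathlib
import Pool.Agent.Q42.NF.Main
import Pool.Agent.Q42.SM.Glue

/-!
# Chern roots in a fixed number field: the main lemma
-/

set_option autoImplicit false

namespace Pool.Agent.Q42.NF

open Finset Polynomial NumberField Filter Topology Pool.Agent.Q49.RB Pool.Agent.Q42.SM

/-- a linear inequality for large `n` -/
theorem eventually_lin (a b C0 : ℝ) (R : ℕ) (h : b < a) :
    ∀ᶠ n : ℕ in atTop, b * n + C0 < a * ((n : ℝ) - R) := by
  have h1 : Tendsto (fun n : ℕ => (a - b) * (n : ℝ)) atTop atTop :=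
    Tendsto.const_mul_atTop (sub_pos.2 h) tendsto_natCast_atTop_atTop
  filter_upwards [h1.eventually_gt_atTop (C0 + a * R)] with n hn
  linarith

theorem two_q (m : ℕ) (hm : 1 ≤ m) : ((m * (m - 1) / 2 : ℕ) : ℝ) = (m : ℝ) * (m - 1) / 2 := by
  have h1 : 2 * (m * (m - 1) / 2) = m * (m - 1) :=
    Nat.mul_div_cancel' (Nat.even_mul_pred_self m).two_dvd
  have h2 : (2 : ℝ) * ((m * (m - 1) / 2 : ℕ) : ℝ) = (m : ℝ) * ((m - 1 : ℕ) : ℝ) := by
    exact_mod_cast h1
  rw [Nat.cast_sub hm] at h2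
  push_cast at h2
  linarith

/-- **The main lemma.** -/
theorem fixed (E : IntermediateField ℚ ℂ) [FiniteDimensional ℚ E] (hE : 2 ≤ Module.finrank ℚ E)
    (r : ℕ) (κ : ℝ) (hκ0 : 0 ≤ κ) (hκ : κ < kap r) :
    ∀ᶠ n : ℕ in atTop, ∀ (δ : Fin r → ℂ) (c : ℕ → ℤ),
      ∏ i, (1 + C (δ i) * X) = ∑ j ∈ range (r + 1), C ((c j : ℤ) : ℂ) * X ^ j →
      Integral n (fun S : Finset (Fin r) => (-1 : ℤ) ^ S.card) (fun S => ∑ i ∈ S, -δ i) →
      c r ≠ 0 → (∀ j, 1 ≤ j → j ≤ r → |(c j : ℝ)| ≤ Real.exp (κ * j * n)) →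
      ∀ i, IntermediateField.adjoin ℚ {δ i} ≠ E := by
  classical
  have : NumberField E := { to_charZero := inferInstance, to_finiteDimensional := inferInstance }
  obtain ⟨m, hm, b, e, D, hD0, he, hD⟩ : ∃ m, m = Module.finrank ℚ E ∧
      ∃ (b : Module.Basis (Fin m) ℤ (𝓞 E)) (e : Fin m → (E →+* ℂ)) (D : ℤ), D ≠ 0 ∧
        Function.Bijective e ∧ (Nm b e).det ^ 2 = (D : integralClosure ℤ ℂ) := by
    obtain ⟨b, e, D, h⟩ := exists_basis E
    exact ⟨_, rfl, b, e, D, h⟩
  rw [← hm] at hE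
  -- the conjugates
  have main : ∀ (δ : Fin r → ℂ) (c : ℕ → ℤ)
      (h : ∏ i, (1 + C (δ i) * X) = ∑ j ∈ range (r + 1), C ((c j : ℤ) : ℂ) * X ^ j),
      c r ≠ 0 → ∀ i, IntermediateField.adjoin ℚ {δ i} = E →
      ∃ θ : 𝓞 E, (∀ j, ∃ k, e j θ = δ k) ∧ Function.Injective fun j => e j θ := by
    intro δ c h hc0 i hi
    have hmem : δ i ∈ E := by
      rw [← hi]
      exact IntermediateField.subset_adjoin _ _ (Set.mem_singleton _)
    have hδi : δ i ≠ 0 := by
      intro h0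
      have h1 := prod_root h
      rw [prod_eq_zero (mem_univ i) h0] at h1
      exact hc0 (by exact_mod_cast h1.symm)
    have hint : IsIntegral ℤ (⟨δ i, hmem⟩ : E) := by
      rw [← isIntegral_algebraMap_iff (A := E) (B := ℂ) (algebraMap E ℂ).injective]
      exact root_integral h i
    refine ⟨⟨⟨δ i, hmem⟩, hint⟩, fun j => ?_, fun j j' hjj => he.1 ?_⟩
    · refine conj_root h (⟨δ i, hmem⟩ : E) ?_ (algebraMap E ℂ) (e j) i rfl
      intro h0
      exact hδi (congrArg Subtype.val h0)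
    · have h1 : (e j).toRatAlgHom = (e j').toRatAlgHom := by
        refine IntermediateField.algHom_ext_of_eq_adjoin ℚ hi.symm fun x hx => ?_
        have hx' : x = δ i := hx
        subst hx'
        exact hjj
      ext x
      exact congrArg (fun f : E →ₐ[ℚ] ℂ => f x) h1
  by_cases hmr : m ≤ r
  swap
  · refine Eventually.of_forall fun n δ c h _ hc0 _ i hi => hmr ?_
    obtain ⟨θ, h1, h2⟩ := main δ c h hc0 i hi
    choose k hk using h1
    have h3 : Function.Injective k := by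
      intro j j' hjj
      apply h2
      simp only
      rw [hk j, hk j', hjj]
    have := Fintype.card_le_of_injective k h3
    simpa using this
  set r' : ℕ := if r = 2 then 0 else r with hr'
  obtain ⟨a, ha1, ha2⟩ := exists_between (kap_use hE hmr κ hκ0 hκ)
  rw [← hr'] at ha1
  have h1 := nonsplit E a (by rwa [← hm])
  set q : ℕ := m * (m - 1) / 2 with hq
  have hqr : (q : ℝ) = (m : ℝ) * (m - 1) / 2 := two_q m (by omega)
  rw [← hqr] at ha1
  set Z : Finset ℕ := range (2 ^ r + 1) ∪ D.natAbs.primeFactors with hZ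
  set C0 : ℝ := ∑ p ∈ Z, Real.log p with hC0
  have ht : Tendsto (fun n : ℕ => n + 1 - 2 ^ r) atTop atTop :=
    (tendsto_sub_atTop_nat (2 ^ r)).comp (tendsto_add_atTop_nat 1)
  filter_upwards [ht.eventually h1, eventually_lin a (κ * (q + r')) (q * Real.log 4 + C0) (2 ^ r)
    ha1, eventually_ge_atTop (2 ^ r)] with n h2 h3 hn δ c h hI hc0 hbd i hi
  obtain ⟨θ, hk, hinj⟩ := main δ c h hc0 i hi
  set t : ℤ := (Tm b θ).det with ht'
  have ht0 : t ≠ 0 := t_ne_zero b e θ hinj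
  set c' : ℤ := if r = 2 then 1 else c r with hc'
  have hc'0 : c' ≠ 0 := by
    rw [hc']
    split_ifs
    exacts [one_ne_zero, hc0]
  set N : ℕ := n + 1 - 2 ^ r with hN
  set S : Finset ℕ := (NS E N).filter fun p => 2 ^ r < p ∧ ¬ (p : ℤ) ∣ D with hS
  have hSp : ∀ p ∈ S, p.Prime := fun p hp => (mem_filter.1 (mem_filter.1 hp).1).2.1
  -- the divisibility
  have hdiv : ∀ p ∈ S, (p : ℤ) ∣ t * c' := by
    intro p hp
    obtain ⟨hp1, hp2, hp3⟩ := mem_filter.1 hp
    obtain ⟨hp4, hp5, hp6⟩ := mem_filter.1 hp1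
    rw [mem_range] at hp4
    by_contra hcon
    have hpt : ¬ (p : ℤ) ∣ t := fun hx => hcon (Dvd.dvd.mul_right hx c')
    have hpc : r = 2 ∨ ¬ (p : ℤ) ∣ c r := by
      by_cases hr2 : r = 2
      · exact Or.inl hr2
      · right
        intro hx
        apply hcon
        rw [hc', if_neg hr2]
        exact Dvd.dvd.mul_left hx t
    have : Fact p.Prime := ⟨hp5⟩
    rw [← hm] at hp6
    obtain ⟨F, iF, iC, φ, -⟩ := exists_residue hp5
    refine absurd hp6 (not_lt.2 (card_ge φ b e D hD hp3 θ (fun j => ?_) hpt))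
    obtain ⟨k, hk⟩ := hk j
    have h5 : emb (e j) θ = ⟨δ k, root_integral h k⟩ := Subtype.ext hk
    rw [h5]
    exact roots_fixed' n p hp5 hp2 (by omega) h hI hpc φ k
  have hP := prod_dvd S hSp (t * c') hdiv
  have hPle : ((∏ p ∈ S, p : ℕ) : ℝ) ≤ |(t : ℝ)| * |(c' : ℝ)| := by
    have h5 := Int.le_of_dvd (abs_pos.2 (mul_ne_zero ht0 hc'0)) ((dvd_abs _ _).2 hP)
    rw [abs_mul] at h5
    exact_mod_cast h5
  have hPpos : (0 : ℝ) < ((∏ p ∈ S, p : ℕ) : ℝ) := by
    have : 0 < ∏ p ∈ S, p := prod_pos fun p hp => (hSp p hp).pos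
    exact_mod_cast this
  -- the upper bound
  set Y : ℝ := Real.exp (κ * n) with hY
  have hY0 : 0 < Y := Real.exp_pos _
  have hpow : ∀ j : ℕ, Real.exp (κ * j * n) = Y ^ j := by
    intro j
    rw [hY, ← Real.exp_nat_mul]
    congr 1
    ring
  have hroot : ∀ k, ‖δ k‖ ≤ 2 * Y := root_bound h Y hY0.le fun j h5 h6 => by
    rw [← hpow]
    exact hbd j h5 h6
  have htb : |(t : ℝ)| ≤ (2 * (2 * Y)) ^ q := t_bound b e D hD hD0 θ (2 * Y) fun j => by
    obtain ⟨k, hk⟩ := hk j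
    rw [hk]
    exact hroot k
  have hcb : |(c' : ℝ)| ≤ Y ^ r' := by
    rw [hc', hr']
    by_cases hr2 : r = 2
    · rw [if_pos hr2, if_pos hr2]
      simp
    · rw [if_neg hr2, if_neg hr2, ← hpow]
      by_cases hr0 : r = 0
      · subst hr0
        omega
      · exact hbd r (by omega) le_rfl
  have hup : Real.log ((∏ p ∈ S, p : ℕ) : ℝ) ≤ q * (Real.log 4 + κ * n) + r' * (κ * n) := by
    have h5 : ((∏ p ∈ S, p : ℕ) : ℝ) ≤ (4 * Y) ^ q * Y ^ r' := by
      refine hPle.trans ?_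
      have h6 : 2 * (2 * Y) = 4 * Y := by ring
      rw [h6] at htb
      exact mul_le_mul htb hcb (abs_nonneg _) (by positivity)
    refine (Real.log_le_log hPpos h5).trans (le_of_eq ?_)
    rw [Real.log_mul (by positivity) (by positivity), Real.log_pow, Real.log_pow,
      Real.log_mul (by norm_num) hY0.ne', hY, Real.log_exp]
  -- the lower bound
  have hlo : a * ((n : ℝ) - (2 ^ r : ℕ)) - C0 ≤ Real.log ((∏ p ∈ S, p : ℕ) : ℝ) := by
    have e1 : Real.log ((∏ p ∈ S, p : ℕ) : ℝ) = ∑ p ∈ S, Real.log p := by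
      push_cast
      rw [Real.log_prod]
      intro p hp
      exact_mod_cast (hSp p hp).ne_zero
    have e2 : ∑ p ∈ NS E N, Real.log p ≤ ∑ p ∈ S, Real.log p + C0 := by
      rw [← sum_filter_add_sum_filter_not (NS E N) (fun p => 2 ^ r < p ∧ ¬ (p : ℤ) ∣ D)]
      refine add_le_add le_rfl ?_
      rw [hC0]
      refine sum_le_sum_of_subset_of_nonneg (fun p hp => ?_) fun p _ _ => Real.log_natCast_nonneg p
      obtain ⟨hp1, hp2⟩ := mem_filter.1 hp
      obtain ⟨-, hp5, -⟩ := mem_filter.1 hp1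
      rw [hZ, mem_union]
      by_cases hp3 : 2 ^ r < p
      · right
        have hp4 : (p : ℤ) ∣ D := by
          by_contra hx
          exact hp2 ⟨hp3, hx⟩
        rw [Nat.mem_primeFactors]
        exact ⟨hp5, Int.natCast_dvd.1 hp4, Int.natAbs_ne_zero.2 hD0⟩
      · left
        rw [mem_range]
        omega
    have e3 : (n : ℝ) - (2 ^ r : ℕ) ≤ (N : ℝ) := by
      have : (n : ℝ) ≤ (N : ℝ) + (2 ^ r : ℕ) := by
        have : n ≤ N + 2 ^ r := by omega
        exact_mod_cast this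
      linarith
    have ha0 : 0 ≤ a := by
      have : 0 ≤ κ * ((q : ℝ) + (r' : ℕ)) := by positivity
      linarith
    have e4 := mul_le_mul_of_nonneg_left e3 ha0
    rw [e1]
    linarith
  have hfin := hlo.trans hup
  have e5 : κ * ((q : ℝ) + (r' : ℕ)) * n = q * (κ * n) + r' * (κ * n) := by ring
  rw [e5] at h3
  linarith

/-- an intermediate field of `L` -/
theorem finite_sub (L : IntermediateField ℚ ℂ) [FiniteDimensional ℚ L] :
    {E : IntermediateField ℚ ℂ | E ≤ L}.Finite := by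
  have h1 : Finite (IntermediateField ℚ L) :=
    Field.finite_intermediateField_of_exists_primitive_element ℚ L
      (Field.exists_primitive_element ℚ L)
  refine Set.Finite.subset (Set.finite_range fun E' : IntermediateField ℚ L =>
    IntermediateField.lift E') fun E hE => ?_
  exact ⟨IntermediateField.restrict hE, IntermediateField.lift_restrict hE⟩

/-- **Chern roots in a fixed number field are integers.** -/
theorem roots_int (L : IntermediateField ℚ ℂ) [FiniteDimensional ℚ L] (r : ℕ) (κ : ℝ)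
    (hκ0 : 0 ≤ κ) (hκ : κ < kap r) :
    ∀ᶠ n : ℕ in atTop, ∀ (δ : Fin r → ℂ) (c : ℕ → ℤ),
      ∏ i, (1 + C (δ i) * X) = ∑ j ∈ range (r + 1), C ((c j : ℤ) : ℂ) * X ^ j →
      Integral n (fun S : Finset (Fin r) => (-1 : ℤ) ^ S.card) (fun S => ∑ i ∈ S, -δ i) →
      c r ≠ 0 → (∀ j, 1 ≤ j → j ≤ r → |(c j : ℝ)| ≤ Real.exp (κ * j * n)) →
      ∀ i, δ i ∈ L → ∃ d : ℤ, δ i = d := by
  have h1 : ∀ᶠ n : ℕ in atTop, ∀ E ∈ {E : IntermediateField ℚ ℂ | E ≤ L}, E ≠ ⊥ →
      ∀ (δ : Fin r → ℂ) (c : ℕ → ℤ),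
      ∏ i, (1 + C (δ i) * X) = ∑ j ∈ range (r + 1), C ((c j : ℤ) : ℂ) * X ^ j →
      Integral n (fun S : Finset (Fin r) => (-1 : ℤ) ^ S.card) (fun S => ∑ i ∈ S, -δ i) →
      c r ≠ 0 → (∀ j, 1 ≤ j → j ≤ r → |(c j : ℝ)| ≤ Real.exp (κ * j * n)) →
      ∀ i, IntermediateField.adjoin ℚ {δ i} ≠ E := by
    rw [eventually_all_finite (finite_sub L)]
    intro E hE
    by_cases hbot : E = ⊥
    · exact Eventually.of_forall fun n hx => absurd hbot hx
    have : FiniteDimensional ℚ E :=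
      FiniteDimensional.of_injective (IntermediateField.inclusion hE).toLinearMap
        (IntermediateField.inclusion_injective hE)
    have h2 : 2 ≤ Module.finrank ℚ E := by
      have h3 : Module.finrank ℚ E ≠ 1 := fun hx => hbot (IntermediateField.finrank_eq_one_iff.1 hx)
      have h4 : 0 < Module.finrank ℚ E := Module.finrank_pos
      omega
    filter_upwards [fixed E h2 r κ hκ0 hκ] with n hn _
    exact hn
  filter_upwards [h1] with n hn δ c h hI hc0 hbd i hi
  have h2 : IntermediateField.adjoin ℚ {δ i} ≤ L := by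
    rw [IntermediateField.adjoin_simple_le_iff]
    exact hi
  have h3 : IntermediateField.adjoin ℚ {δ i} = ⊥ := by
    by_contra hx
    exact hn _ h2 hx δ c h hI hc0 hbd i rfl
  rw [IntermediateField.adjoin_simple_eq_bot_iff, IntermediateField.mem_bot] at h3
  obtain ⟨x, hx⟩ := h3
  have hx' : δ i = (x : ℂ) := by
    rw [← hx]
    simp
  obtain ⟨k, hk⟩ := rational_int (δ i) (root_integral h i) x hx'
  exact ⟨k, hk⟩

end Pool.Agent.Q42.NF
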